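import Pool.Agent.H652Z.CC.Rig

set_option maxHeartbeats 400000

namespace Pool.Agent.Results.MP_7d68c1_gt.InteriorNotCC

open Pool.Agent.H652Z.CC

/-- A convex cocompact subgroup `Γ` of `PGL(4, ℝ)` and a representation of `Γ` in the interior of
the naively convex cocompact representations that is not convex cocompact. -/
theorem result : ∃ Γ : Subgroup (PGLR 4), ConvexCC Γ ∧ ∃ ρ₀ : Γ →* PGLR 4,
    (∃ U : Set (Γ → PGLR 4), IsOpen U ∧ (ρ₀ : Γ → PGLR 4) ∈ U ∧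
      ∀ ρ : Γ →* PGLR 4, (ρ : Γ → PGLR 4) ∈ U → Function.Injective ρ ∧ NaiveCC ρ.range) ∧
    ¬ ConvexCC ρ₀.range := by
  obtain ⟨Γ, hΓ, ⟨e⟩⟩ : ∃ Γ : Subgroup (PGLR 4), ConvexCC Γ ∧ Nonempty (G ≃* Γ) :=
    ⟨_, is_cc one_pos, ⟨MonoidHom.ofInjective (rho_inj one_pos 0 1)⟩⟩
  have hr : ∀ f : G →* PGLR 4, (f.comp e.symm.toMonoidHom).range = f.range := fun f => by
    rw [MonoidHom.range_comp, MonoidHom.range_eq_top.2 e.symm.surjective, ← MonoidHom.range_eq_map]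
  refine ⟨Γ, hΓ, (rho 1 1 1).comp e.symm.toMonoidHom, ?_, by rw [hr]; exact not_cc one_pos⟩
  obtain ⟨U, h1, h2, h3⟩ := mem_nhds_iff.1 (near Γ (e (.r 0, -1)) (e (.sr 0, 1)) (e (.sr 1, 1))
    ((rho 1 1 1).comp e.symm.toMonoidHom) (by simp) (by simp) (by simp))
  refine ⟨U, h2, h3, fun ρ hρ => ?_⟩
  obtain ⟨a, b, P, ha, hb, h5⟩ := h1 hρ (ρ.comp e.toMonoidHom) rfl rfl rfl
  have h6 : ρ = (rho a b P).comp e.symm.toMonoidHom := by
    rw [← h5]; ext x; simp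
  rw [h6, hr]
  exact ⟨(rho_inj ha b P).comp e.symm.injective, near_naive ha hb P⟩

end Pool.Agent.Results.MP_7d68c1_gt.InteriorNotCC
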